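import Pool.Agent.W8.KU.Stm

set_option autoImplicit false

/-! KU-Rad: the radii. -/

open scoped Topology ContDiff

namespace Pool.Agent.W899.KU

open Pool.Agent.W8.KU

theorem cbr_cube (u : ℝ) (hu : 0 ≤ u) : cbr u ^ 3 = u := by
  unfold cbr
  rw [← Real.rpow_natCast, ← Real.rpow_mul hu]
  norm_num

theorem cbr_pos (u : ℝ) (hu : 0 < u) : 0 < cbr u := Real.rpow_pos_of_pos hu _

theorem cbr_of (c : ℝ) (hc : 0 ≤ c) : cbr (c ^ 3) = c := by
  unfold cbr
  rw [← Real.rpow_natCast, ← Real.rpow_mul hc]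
  norm_num

theorem est (a c s t : ℝ) (ha : 0 < a) (hc : 1 ≤ c) (h : a ^ 3 = c ^ 3 + s) (hs : |s| = |t|) :
    |a / c - 1| ≤ |t| := by
  have hc0 : 0 < c := by linarith
  have hb : 0 < a / c := div_pos ha hc0
  have h3 : (a / c) ^ 3 - 1 = s / c ^ 3 := by
    rw [div_pow, h]
    field_simp
    ring
  have h4 : (a / c) ^ 3 - 1 = (a / c - 1) * ((a / c) ^ 2 + a / c + 1) := by ring
  have h5 : |a / c - 1| * ((a / c) ^ 2 + a / c + 1) = |s / c ^ 3| := by
    rw [← h3, h4, abs_mul, abs_of_pos (by positivity : 0 < (a / c) ^ 2 + a / c + 1)]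
  have h6 : |s / c ^ 3| ≤ |t| := by
    rw [abs_div, hs, abs_of_pos (by positivity : 0 < c ^ 3)]
    exact div_le_self (abs_nonneg t) (one_le_pow₀ hc)
  have h7 : |a / c - 1| ≤ |a / c - 1| * ((a / c) ^ 2 + a / c + 1) :=
    le_mul_of_one_le_right (abs_nonneg _) (by nlinarith)
  linarith

theorem Rad_proof : Rad := by
  refine ⟨⟨?_, ?_, ?_⟩, ?_⟩
  · unfold ra
    have := cbr_of 2 (by norm_num)
    norm_num at this ⊢
    exact this
  · unfold rb
    have := cbr_of 6 (by norm_num)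
    norm_num at this ⊢
    exact this
  · unfold rc
    have := cbr_of 3 (by norm_num)
    norm_num at this ⊢
    exact this
  · intro t ht
    rw [abs_lt] at ht
    have p1 : 0 < 8 + t := by linarith
    have p2 : 0 < 216 - t := by linarith
    have p3 : 0 < 27 - t := by linarith
    have e1 : ra t ^ 3 = 8 + t := cbr_cube _ p1.le
    have e2 : rb t ^ 3 = 216 - t := cbr_cube _ p2.le
    have e3 : rc t ^ 3 = 27 - t := cbr_cube _ p3.le
    have q1 : 0 < ra t := cbr_pos _ p1
    have q2 : 0 < rb t := cbr_pos _ p2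
    have q3 : 0 < rc t := cbr_pos _ p3
    refine ⟨e1, e2, e3, q1, q2, q3, ?_, ?_, ?_, ?_, ?_, ?_⟩
    · exact est _ 2 t t q1 (by norm_num) (by rw [e1]; norm_num) rfl
    · exact est _ 6 (-t) t q2 (by norm_num) (by rw [e2]; norm_num; ring) (abs_neg t)
    · exact est _ 3 (-t) t q3 (by norm_num) (by rw [e3]; norm_num; ring) (abs_neg t)
    · exact ContDiffAt.rpow_const_of_ne (contDiffAt_const.add contDiffAt_id) p1.ne'
    · exact ContDiffAt.rpow_const_of_ne (contDiffAt_const.sub contDiffAt_id) p2.ne'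
    · exact ContDiffAt.rpow_const_of_ne (contDiffAt_const.sub contDiffAt_id) p3.ne'

end Pool.Agent.W899.KU
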